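import Mathlib

/-!
Distance multiplicities of finite planar sets.
-/

namespace Pool.Agent.Helper42.Glide

/-- The Euclidean plane `ℝ²`. -/
abbrev Plane : Type := EuclideanSpace ℝ (Fin 2)

/-- The multiplicity of `d`: the number of unordered pairs `{x, y} ⊆ X`, `x ≠ y`, at distance `d`. -/
noncomputable def mult (X : Finset Plane) (d : ℝ) : ℕ := by
  classical exact ((X.powersetCard 2).filter fun s => ∃ x y : Plane, s = {x, y} ∧ dist x y = d).card

/-- The distinct distances occurring in `X` (between distinct points of `X`). -/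
noncomputable def dists (X : Finset Plane) : Finset ℝ := by
  classical exact X.offDiag.image fun p => dist p.1 p.2

/-- The list `a(X)` of the multiplicities of the distinct distances of `X`, in non-increasing
order. -/
noncomputable def multList (X : Finset Plane) : List ℕ :=
  ((dists X).val.map (mult X)).sort (· ≥ ·)

/-- The list `(n-1, n-2, …, 1)`. -/
def descending (n : ℕ) : List ℕ := (List.range (n - 1)).map fun i => n - 1 - i

/-- Type (A): the `n` points `p + j v`, `0 ≤ j ≤ n-1`, with `v ≠ 0`. -/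
def TypeA (n : ℕ) (X : Finset Plane) : Prop :=
  ∃ p v : Plane, v ≠ 0 ∧ (X : Set Plane) = {x | ∃ j : ℕ, j ≤ n - 1 ∧ x = p + (j : ℝ) • v}

/-- The point `c + r (cos α, sin α)`. -/
noncomputable def circPt (c : Plane) (r α : ℝ) : Plane := c + r • !₂[Real.cos α, Real.sin α]

/-- Type (B): the `n` points `c + r (cos (α + jθ), sin (α + jθ))`, `0 ≤ j ≤ n-1`, with `r > 0` and
`0 < (n-1) θ < 2π`. -/
def TypeB (n : ℕ) (X : Finset Plane) : Prop :=
  ∃ (c : Plane) (r α θ : ℝ), 0 < r ∧ 0 < ((n - 1 : ℕ) : ℝ) * θ ∧ ((n - 1 : ℕ) : ℝ) * θ < 2 * Real.pi ∧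
    (X : Set Plane) = {x | ∃ j : ℕ, j ≤ n - 1 ∧ x = circPt c r (α + j * θ)}

/-- Type (C): the centre `c` together with the `n - 1` points
`c + r (cos (α + jθ), sin (α + jθ))`, `0 ≤ j ≤ n-2`, with `r > 0` and `0 < (n-2) θ < 2π`. -/
def TypeC (n : ℕ) (X : Finset Plane) : Prop :=
  ∃ (c : Plane) (r α θ : ℝ), 0 < r ∧ 0 < ((n - 2 : ℕ) : ℝ) * θ ∧ ((n - 2 : ℕ) : ℝ) * θ < 2 * Real.pi ∧
    (X : Set Plane) = {c} ∪ {x | ∃ j : ℕ, j ≤ n - 2 ∧ x = circPt c r (α + j * θ)}

end Pool.Agent.Helper42.Glide
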