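import Mathlib
import Pool.Agent.Helper42.Glide.Defs

/-!
Orbits of a glide reflection have distance multiplicities `(n-1, …, 1)`.
-/

namespace Pool.Agent.Helper42.Glide

/-- orbit of the glide reflection `(x, y) ↦ (x + 2, 1 - y)` -/
noncomputable def pt (j : ℕ) : Plane := !₂[(2 * j : ℝ), ((j % 2 : ℕ) : ℝ)]

lemma pt_zero (j : ℕ) : pt j 0 = 2 * j := rfl
lemma pt_one (j : ℕ) : pt j 1 = ((j % 2 : ℕ) : ℝ) := rfl

lemma pt_injective : Function.Injective pt := by
  intro i j h
  have h1 : pt i 0 = pt j 0 := by rw [h]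
  rw [pt_zero, pt_zero] at h1
  have h2 : (i : ℝ) = j := by linarith
  exact_mod_cast h2

/-- the squared distances -/
def sqd (k : ℕ) : ℕ := 4 * k ^ 2 + k % 2

/-- the distances -/
noncomputable def D (k : ℕ) : ℝ := Real.sqrt (sqd k : ℝ)

lemma sqd_injective : Function.Injective sqd := by
  intro a b h
  unfold sqd at h
  rcases Nat.mod_two_eq_zero_or_one a with ha | ha <;> rcases Nat.mod_two_eq_zero_or_one b with hb | hb
  · rw [ha, hb] at h
    have : a ^ 2 = b ^ 2 := by omega
    exact (Nat.pow_left_injective (n := 2) two_ne_zero) this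
  · omega
  · omega
  · rw [ha, hb] at h
    have : a ^ 2 = b ^ 2 := by omega
    exact (Nat.pow_left_injective (n := 2) two_ne_zero) this

lemma D_injective : Function.Injective D := by
  intro a b h
  unfold D at h
  have h1 := (Real.sqrt_inj (by positivity) (by positivity)).1 h
  exact sqd_injective (by exact_mod_cast h1)

lemma dist_pt (i k : ℕ) : dist (pt i) (pt (i + k)) = D k := by
  rw [EuclideanSpace.dist_eq, Fin.sum_univ_two]
  unfold D
  congr 1
  rw [Real.dist_eq, Real.dist_eq, sq_abs, sq_abs, pt_zero, pt_zero, pt_one, pt_one]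
  unfold sqd
  rcases Nat.mod_two_eq_zero_or_one i with hi | hi <;> rcases Nat.mod_two_eq_zero_or_one k with hk | hk
  · have h : (i + k) % 2 = 0 := by omega
    rw [h, hi, hk]; push_cast; ring
  · have h : (i + k) % 2 = 1 := by omega
    rw [h, hi, hk]; push_cast; ring
  · have h : (i + k) % 2 = 1 := by omega
    rw [h, hi, hk]; push_cast; ring
  · have h : (i + k) % 2 = 0 := by omega
    rw [h, hi, hk]; push_cast; ring

open Classical in
/-- the set -/
noncomputable def XX (n : ℕ) : Finset Plane := (Finset.range n).image pt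

lemma XX_card (n : ℕ) : (XX n).card = n := by
  unfold XX
  rw [Finset.card_image_of_injective _ pt_injective, Finset.card_range]

lemma mem_XX {n : ℕ} {x : Plane} : x ∈ XX n ↔ ∃ j < n, x = pt j := by
  classical
  unfold XX
  rw [Finset.mem_image]
  constructor
  · rintro ⟨j, hj, rfl⟩; exact ⟨j, Finset.mem_range.1 hj, rfl⟩
  · rintro ⟨j, hj, rfl⟩; exact ⟨j, Finset.mem_range.2 hj, rfl⟩

lemma pair_form {n : ℕ} {x y : Plane} (hx : x ∈ XX n) (hy : y ∈ XX n) (hne : x ≠ y) :
    ∃ i k, 1 ≤ k ∧ i + k < n ∧ (({x, y} : Set Plane) = {pt i, pt (i + k)}) ∧ dist x y = D k := by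
  obtain ⟨i, hi, rfl⟩ := mem_XX.1 hx
  obtain ⟨j, hj, rfl⟩ := mem_XX.1 hy
  rcases lt_trichotomy i j with h | h | h
  · obtain ⟨k, rfl⟩ := Nat.exists_eq_add_of_lt h
    refine ⟨i, k + 1, by omega, by omega, rfl, ?_⟩
    rw [← dist_pt i (k + 1)]; rfl
  · rw [h] at hne; exact absurd rfl hne
  · obtain ⟨k, rfl⟩ := Nat.exists_eq_add_of_lt h
    refine ⟨j, k + 1, by omega, by omega, Set.pair_comm _ _, ?_⟩
    rw [dist_comm, ← dist_pt j (k + 1)]; rfl

lemma dists_XX (n : ℕ) : dists (XX n) = (Finset.Icc 1 (n - 1)).image D := by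
  classical
  ext d
  unfold dists
  simp only [Finset.mem_image, Finset.mem_offDiag, Finset.mem_Icc, Prod.exists]
  constructor
  · rintro ⟨x, y, ⟨hx, hy, hne⟩, rfl⟩
    obtain ⟨i, k, h1, h2, -, h3⟩ := pair_form hx hy hne
    exact ⟨k, ⟨h1, by omega⟩, h3.symm⟩
  · rintro ⟨k, ⟨h1, h2⟩, rfl⟩
    refine ⟨pt 0, pt (0 + k), ⟨mem_XX.2 ⟨0, by omega, rfl⟩, mem_XX.2 ⟨0 + k, by omega, rfl⟩, ?_⟩, dist_pt 0 k⟩
    intro h
    have := pt_injective h
    omega

lemma mult_XX (n k : ℕ) (hk : 1 ≤ k) : mult (XX n) (D k) = n - k := by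
  classical
  have key : ((XX n).powersetCard 2).filter (fun s => ∃ x y : Plane, s = {x, y} ∧ dist x y = D k) =
      (Finset.range (n - k)).image fun i => ({pt i, pt (i + k)} : Finset Plane) := by
    ext s
    simp only [Finset.mem_filter, Finset.mem_powersetCard, Finset.mem_image, Finset.mem_range]
    constructor
    · rintro ⟨⟨h1, h2⟩, x, y, rfl, h3⟩
      have hne : x ≠ y := by
        rintro rfl; simp at h2
      have hx : x ∈ XX n := h1 (by simp)
      have hy : y ∈ XX n := h1 (by simp)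
      obtain ⟨i, k', h4, h5, h6, h7⟩ := pair_form hx hy hne
      have hkk : k' = k := D_injective (h7.symm.trans h3)
      subst hkk
      refine ⟨i, by omega, ?_⟩
      have h8 : ((({pt i, pt (i + k')} : Finset Plane)) : Set Plane) = (({x, y} : Finset Plane) : Set Plane) := by
        push_cast
        exact h6.symm
      exact_mod_cast h8
    · rintro ⟨i, hi, rfl⟩
      have hne : pt i ≠ pt (i + k) := by
        intro h
        have := pt_injective h
        omega
      refine ⟨⟨?_, Finset.card_pair hne⟩, pt i, pt (i + k), rfl, dist_pt i k⟩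
      intro x hx
      simp only [Finset.mem_insert, Finset.mem_singleton] at hx
      rcases hx with rfl | rfl
      · exact mem_XX.2 ⟨i, by omega, rfl⟩
      · exact mem_XX.2 ⟨i + k, by omega, rfl⟩
  have inj : Function.Injective fun i => ({pt i, pt (i + k)} : Finset Plane) := by
    intro i j h
    have h1 : pt i ∈ ({pt j, pt (j + k)} : Finset Plane) := by
      have : pt i ∈ ({pt i, pt (i + k)} : Finset Plane) := by simp
      simp only at h
      rwa [h] at this
    have h2 : pt j ∈ ({pt i, pt (i + k)} : Finset Plane) := by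
      have : pt j ∈ ({pt j, pt (j + k)} : Finset Plane) := by simp
      simp only at h
      rwa [← h] at this
    simp only [Finset.mem_insert, Finset.mem_singleton] at h1 h2
    rcases h1 with h1 | h1
    · exact pt_injective h1
    · rcases h2 with h2 | h2
      · exact (pt_injective h2).symm
      · have h3 := pt_injective h1
        have h4 := pt_injective h2
        omega
  unfold mult
  convert (congrArg Finset.card key).trans ((Finset.card_image_of_injective _ inj).trans (Finset.card_range _))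

lemma multList_XX (n : ℕ) : multList (XX n) = descending n := by
  classical
  have h1 : (dists (XX n)).val.map (mult (XX n)) = ((descending n : List ℕ) : Multiset ℕ) := by
    rw [dists_XX, Finset.image_val_of_injOn (D_injective.injOn), Multiset.map_map]
    have h2 : (Finset.Icc 1 (n - 1)).val.map (mult (XX n) ∘ D) = (Finset.Icc 1 (n - 1)).val.map fun k => n - k := by
      apply Multiset.map_congr rfl
      intro k hk
      have : 1 ≤ k := (Finset.mem_Icc.1 hk).1
      exact mult_XX n k this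
    rw [h2]
    have h3 : Finset.Icc 1 (n - 1) = (Finset.range (n - 1)).image (· + 1) := by
      ext k
      simp only [Finset.mem_Icc, Finset.mem_image, Finset.mem_range]
      constructor
      · rintro ⟨h4, h5⟩; exact ⟨k - 1, by omega, by omega⟩
      · rintro ⟨j, h4, rfl⟩; omega
    rw [h3, Finset.image_val_of_injOn (add_left_injective 1).injOn, Multiset.map_map]
    unfold descending
    rw [← Multiset.map_coe]
    have h4 : (Finset.range (n - 1)).val = ((List.range (n - 1) : List ℕ) : Multiset ℕ) := rfl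
    rw [h4]
    apply Multiset.map_congr rfl
    intro j _
    simp only [Function.comp]
    omega
  unfold multList
  rw [h1, Multiset.coe_sort]
  apply List.mergeSort_eq_self
  unfold descending
  rw [List.pairwise_map]
  apply (List.pairwise_lt_range).imp
  intro a b h
  simp only [ge_iff_le]
  omega

lemma not_typeA {n : ℕ} (hn : 5 ≤ n) : ¬ TypeA n (XX n) := by
  rintro ⟨p, v, -, h⟩
  have h0 : pt 0 ∈ (XX n : Set Plane) := mem_XX.2 ⟨0, by omega, rfl⟩
  have h1 : pt 1 ∈ (XX n : Set Plane) := mem_XX.2 ⟨1, by omega, rfl⟩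
  have h2 : pt 2 ∈ (XX n : Set Plane) := mem_XX.2 ⟨2, by omega, rfl⟩
  rw [h] at h0 h1 h2
  obtain ⟨a, -, ha⟩ := h0
  obtain ⟨b, -, hb⟩ := h1
  obtain ⟨c, -, hc⟩ := h2
  have a0 := congrFun (congrArg (fun x : Plane => (x : Fin 2 → ℝ)) ha) 0
  have a1 := congrFun (congrArg (fun x : Plane => (x : Fin 2 → ℝ)) ha) 1
  have b0 := congrFun (congrArg (fun x : Plane => (x : Fin 2 → ℝ)) hb) 0
  have b1 := congrFun (congrArg (fun x : Plane => (x : Fin 2 → ℝ)) hb) 1
  have c0 := congrFun (congrArg (fun x : Plane => (x : Fin 2 → ℝ)) hc) 0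
  have c1 := congrFun (congrArg (fun x : Plane => (x : Fin 2 → ℝ)) hc) 1
  simp only [pt_zero, pt_one, PiLp.add_apply, PiLp.smul_apply, smul_eq_mul] at a0 a1 b0 b1 c0 c1
  norm_num at a0 a1 b0 b1 c0 c1
  -- (b - a) v = (2, 1), (c - a) v = (4, 0)
  have e1 : ((b : ℝ) - a) * v 0 = 2 := by linarith
  have e2 : ((b : ℝ) - a) * v 1 = 1 := by linarith
  have e3 : ((c : ℝ) - a) * v 0 = 4 := by linarith
  have e4 : ((c : ℝ) - a) * v 1 = 0 := by linarith
  have e5 : (((b : ℝ) - a) * v 0) * (((c : ℝ) - a) * v 1) = (((b : ℝ) - a) * v 1) * (((c : ℝ) - a) * v 0) := by ring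
  rw [e1, e2, e3, e4] at e5
  norm_num at e5

lemma circPt_eq (c : Plane) (r α : ℝ) : (circPt c r α 0 - c 0) ^ 2 + (circPt c r α 1 - c 1) ^ 2 = r ^ 2 := by
  have h0 : circPt c r α 0 = c 0 + r * Real.cos α := rfl
  have h1 : circPt c r α 1 = c 1 + r * Real.sin α := rfl
  rw [h0, h1]
  have := Real.sin_sq_add_cos_sq α
  linear_combination r ^ 2 * this

lemma not_typeB {n : ℕ} (hn : 5 ≤ n) : ¬ TypeB n (XX n) := by
  rintro ⟨c, r, α, θ, -, -, -, h⟩
  have key : ∀ j < n, (2 * (j : ℝ) - c 0) ^ 2 + (((j % 2 : ℕ) : ℝ) - c 1) ^ 2 = r ^ 2 := by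
    intro j hj
    have h0 : pt j ∈ (XX n : Set Plane) := mem_XX.2 ⟨j, hj, rfl⟩
    rw [h] at h0
    obtain ⟨i, -, hi⟩ := h0
    rw [← pt_zero, ← pt_one, hi]
    exact circPt_eq _ _ _
  have k0 := key 0 (by omega)
  have k2 := key 2 (by omega)
  have k4 := key 4 (by omega)
  norm_num at k0 k2 k4
  nlinarith

lemma not_typeC {n : ℕ} (hn : 5 ≤ n) : ¬ TypeC n (XX n) := by
  rintro ⟨c, r, α, θ, -, -, -, h⟩
  have key : ∀ j < n, pt j = c ∨ (2 * (j : ℝ) - c 0) ^ 2 + (((j % 2 : ℕ) : ℝ) - c 1) ^ 2 = r ^ 2 := by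
    intro j hj
    have h0 : pt j ∈ (XX n : Set Plane) := mem_XX.2 ⟨j, hj, rfl⟩
    rw [h] at h0
    rcases h0 with h0 | ⟨i, -, hi⟩
    · left; exact h0
    · right
      rw [← pt_zero, ← pt_one, hi]
      exact circPt_eq _ _ _
  have key' : ∀ i < n, pt i = c → ∀ j < n, j ≠ i →
      (2 * (j : ℝ) - 2 * i) ^ 2 + (((j % 2 : ℕ) : ℝ) - ((i % 2 : ℕ) : ℝ)) ^ 2 = r ^ 2 := by
    intro i hi hic j hj hji
    rcases key j hj with h1 | h1
    · exact absurd (pt_injective (h1.trans hic.symm)) hji
    · rw [← hic, pt_zero, pt_one] at h1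
      exact h1
  rcases key 0 (by omega) with k0 | k0
  · have h1 := key' 0 (by omega) k0 1 (by omega) (by omega)
    have h2 := key' 0 (by omega) k0 2 (by omega) (by omega)
    norm_num at h1 h2
    linarith
  · rcases key 2 (by omega) with k2 | k2
    · have h1 := key' 2 (by omega) k2 1 (by omega) (by omega)
      have h2 := key' 2 (by omega) k2 0 (by omega) (by omega)
      norm_num at h1 h2
      linarith
    · rcases key 4 (by omega) with k4 | k4
      · have h1 := key' 4 (by omega) k4 3 (by omega) (by omega)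
        have h2 := key' 4 (by omega) k4 2 (by omega) (by omega)
        norm_num at h1 h2
        linarith
      · norm_num at k0 k2 k4
        nlinarith

theorem main (n : ℕ) (hn : 5 ≤ n) : ∃ X : Finset Plane, X.card = n ∧ multList X = descending n ∧
    ¬ TypeA n X ∧ ¬ TypeB n X ∧ ¬ TypeC n X :=
  ⟨XX n, XX_card n, multList_XX n, not_typeA hn, not_typeB hn, not_typeC hn⟩

end Pool.Agent.Helper42.Glide
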